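import Pool.Agent.V1198.PJ2

/-!
# Order continuous functionals on projective Banach lattices are determined by the atoms
-/

set_option autoImplicit false
set_option linter.unusedSectionVars false
set_option linter.unusedVariables false

noncomputable section

open Filter Topology

namespace Pool.Agent.Results.MP_100021_an.Atoms

open Pool.Agent.V1198.BL Pool.Agent.V1198.YS Pool.Agent.V1198.FP Pool.Agent.V1198.PJ

variable {X : BLat} {R : Ret X} (E : Env R)

/-- Archimedean property. -/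
theorem arch {w x : X} (hw : 0 ≤ w) (h : ∀ n : ℕ, (n : ℝ) • w ≤ x) : w = 0 := by
  by_contra hcon
  have hpos : 0 < ‖w‖ := norm_pos_iff.2 hcon
  obtain ⟨n, hn⟩ := exists_nat_gt (‖x‖ / ‖w‖)
  have h1 := norm_mono' (smul_nonneg (Nat.cast_nonneg n) hw) (h n)
  rw [norm_smul, Real.norm_of_nonneg (Nat.cast_nonneg n)] at h1
  rw [div_lt_iff₀ hpos] at hn
  linarith

/-- Positive functionals with small values along downward directed sets with infimum `0`. -/
def OC (g : X →L[ℝ] ℝ) : Prop := ∀ V : Set X, Dn V → ∀ ε : ℝ, 0 < ε → ∃ u ∈ V, g u ≤ ε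

/-- Elements with prescribed value of a homomorphism and small value of the functional. -/
theorem exists_u {g : X →L[ℝ] ℝ} (hoc : OC g)
    (hat : ∀ a, IsAtomV a → g a = 0) {φ : X →L[ℝ] realLat} (hφ : IsLatHom φ) {x₀ : X}
    (hx₀ : x₀ ∈ E.K) (hx₀0 : 0 ≤ x₀) {ε : ℝ} (hε : 0 < ε) :
    ∃ u ∈ E.K, 0 ≤ u ∧ u ≤ x₀ ∧ φ u = φ x₀ ∧ g u ≤ ε := by
  set U : Set X := {u | u ∈ E.K ∧ 0 ≤ u ∧ u ≤ x₀ ∧ φ u = φ x₀} with hU
  have hUne : x₀ ∈ U := ⟨hx₀, hx₀0, le_rfl, rfl⟩
  have hUdir : ∀ u ∈ U, ∀ v ∈ U, u ⊓ v ∈ U := by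
    rintro u ⟨h1, h2, h3, h4⟩ v ⟨h1', h2', h3', h4'⟩
    refine ⟨E.inf h1 h1', le_inf h2 h2', inf_le_left.trans h3, ?_⟩
    rw [hφ.inf, h4, h4', inf_idem]
  -- small lower bounds with `φ = 0` vanish
  have hkill : ∀ w ∈ E.K, 0 ≤ w → (∀ u ∈ U, w ≤ u) → φ w = 0 → w = 0 := by
    intro w hwK hw0 hw hφw
    have h1 : ∀ n : ℕ, x₀ - (n : ℝ) • w ∈ U := by
      intro n
      induction n with
      | zero =>
        rw [Nat.cast_zero, zero_smul, sub_zero]
        exact hUne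
      | succ n ih =>
        have h2 : x₀ - ((n + 1 : ℕ) : ℝ) • w = (x₀ - (n : ℝ) • w) - w := by
          rw [Nat.cast_succ, add_smul, one_smul]; abel
        rw [h2]
        refine ⟨E.K.sub_mem ih.1 hwK, sub_nonneg.2 (hw _ ih), (sub_le_self _ hw0).trans ih.2.2.1, ?_⟩
        rw [map_sub, hφw, sub_zero]
        exact ih.2.2.2
    exact arch hw0 fun n => sub_nonneg.1 (h1 n).2.1
  by_cases hcase : ∀ z ∈ E.K, 0 ≤ z → (∀ u ∈ U, z ≤ u) → z = 0
  · obtain ⟨u, hu, hgu⟩ := hoc U (E.dn (fun u hu => hu.1) (fun u hu => hu.2.1) ⟨x₀, hUne⟩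
      (fun u hu v hv => ⟨_, hUdir u hu v hv, inf_le_left, inf_le_right⟩) hcase) ε hε
    exact ⟨u, hu.1, hu.2.1, hu.2.2.1, hu.2.2.2, hgu⟩
  · push Not at hcase
    obtain ⟨w, hwK, hw0, hwU, hwne⟩ := hcase
    have hφw : ∀ w ∈ E.K, 0 ≤ w → (∀ u ∈ U, w ≤ u) → w ≠ 0 → (0 : ℝ) < φ w := by
      intro w hwK hw0 hwU hwne
      refine lt_of_le_of_ne (hφ.nonneg hw0) fun h => hwne (hkill w hwK hw0 hwU h.symm)
    -- nonzero lower bounds are atoms relative to `K`
    have hatom : ∀ w ∈ E.K, 0 ≤ w → (∀ u ∈ U, w ≤ u) → w ≠ 0 → ∀ x ∈ E.K, 0 ≤ x → x ≤ w →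
        x = ((φ x : ℝ) / (φ w : ℝ)) • w := by
      intro w hwK hw0 hwU hwne x hxK hx0 hxw
      have hpos := hφw w hwK hw0 hwU hwne
      set t : ℝ := (φ x : ℝ) / (φ w : ℝ) with ht
      have hφx0 : (0 : ℝ) ≤ φ x := hφ.nonneg hx0
      have hφxw : (φ x : ℝ) ≤ φ w := hφ.mono hxw
      have ht0 : 0 ≤ t := div_nonneg hφx0 hpos.le
      have ht1 : t ≤ 1 := (div_le_one hpos).2 hφxw
      have htw : t • w ≤ w := by
        calc t • w ≤ (1 : ℝ) • w := smul_le_smul_of_nonneg_right ht1 hw0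
          _ = w := one_smul ℝ w
      have hφt : φ (t • w) = φ x := by
        rw [map_smul]
        change ((φ x : ℝ) / (φ w : ℝ)) * (φ w : ℝ) = _
        exact div_mul_cancel₀ _ hpos.ne'
      have h1 : (x - t • w)⁺ = 0 := by
        refine hkill _ (E.pos (E.K.sub_mem hxK (E.K.smul_mem _ hwK))) (posPart_nonneg _) ?_ ?_
        · intro u hu
          exact (sup_le ((sub_le_self _ (smul_nonneg ht0 hw0)).trans hxw) hw0).trans (hwU u hu)
        · rw [hφ.posPart, map_sub, hφt, sub_self, posPart_zero]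
      have h2 : (t • w - x)⁺ = 0 := by
        refine hkill _ (E.pos (E.K.sub_mem (E.K.smul_mem _ hwK) hxK)) (posPart_nonneg _) ?_ ?_
        · intro u hu
          exact (sup_le ((sub_le_self _ hx0).trans htw) hw0).trans (hwU u hu)
        · rw [hφ.posPart, map_sub, hφt, sub_self, posPart_zero]
      exact le_antisymm (le_of_neg_eq_zero h1) (le_of_neg_eq_zero h2)
    have hwpos : 0 < w := lt_of_le_of_ne hw0 (Ne.symm hwne)
    have hgw : g w = 0 := hat w (E.atom hwK hwpos fun x hxK hx0 hxw =>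
      ⟨_, hatom w hwK hw0 hwU hwne x hxK hx0 hxw⟩)
    -- the largest multiple
    set T : Set ℝ := {t | 0 ≤ t ∧ ∀ u ∈ U, t • w ≤ u} with hT
    have hT1 : (1 : ℝ) ∈ T := ⟨zero_le_one, fun u hu => by rw [one_smul]; exact hwU u hu⟩
    have hTb : BddAbove T := by
      refine ⟨‖x₀‖ / ‖w‖, fun t ht => ?_⟩
      have h1 := norm_mono' (smul_nonneg ht.1 hw0) (ht.2 x₀ hUne)
      rw [norm_smul, Real.norm_of_nonneg ht.1] at h1
      rwa [le_div_iff₀ (norm_pos_iff.2 hwne)]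
    set t₀ := sSup T with ht₀
    have ht₀1 : 1 ≤ t₀ := le_csSup hTb hT1
    have hTc : IsClosed T := by
      have h1 : T = Set.Ici 0 ∩ ⋂ u ∈ U, {t : ℝ | t • w ≤ u} := by
        ext t
        simp only [hT, Set.mem_inter_iff, Set.mem_Ici, Set.mem_iInter]
        rfl
      rw [h1]
      refine isClosed_Ici.inter (isClosed_biInter fun u _ => ?_)
      exact isClosed_le (by fun_prop) continuous_const
    have ht₀T : t₀ ∈ T := hTc.csSup_mem ⟨1, hT1⟩ hTb
    have hdn : Dn ((fun u => u - t₀ • w) '' U) := by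
      refine E.dn ?_ ?_ ⟨_, x₀, hUne, rfl⟩ ?_ ?_
      · rintro _ ⟨u, hu, rfl⟩
        exact E.K.sub_mem hu.1 (E.K.smul_mem _ hwK)
      · rintro _ ⟨u, hu, rfl⟩
        exact sub_nonneg.2 (ht₀T.2 u hu)
      · rintro _ ⟨u, hu, rfl⟩ _ ⟨v, hv, rfl⟩
        exact ⟨_, ⟨_, hUdir u hu v hv, rfl⟩, sub_le_sub_right inf_le_left _,
          sub_le_sub_right inf_le_right _⟩
      · intro z hzK hz0 hz
        set w' : X := z + t₀ • w with hw'
        have hw'K : w' ∈ E.K := E.K.add_mem hzK (E.K.smul_mem _ hwK)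
        have hww' : w ≤ w' := by
          calc w = (1 : ℝ) • w := (one_smul ℝ w).symm
            _ ≤ t₀ • w := smul_le_smul_of_nonneg_right ht₀1 hw0
            _ ≤ w' := le_add_of_nonneg_left hz0
        have hw'0 : 0 ≤ w' := hw0.trans hww'
        have hw'U : ∀ u ∈ U, w' ≤ u := fun u hu => by
          have := hz _ ⟨u, hu, rfl⟩
          exact le_sub_iff_add_le.1 this
        have hw'ne : w' ≠ 0 := by
          intro h
          rw [h] at hww'
          exact hwne (le_antisymm hww' hw0)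
        have h1 := hatom w' hw'K hw'0 hw'U hw'ne w hwK hw0 hww'
        set τ : ℝ := (φ w : ℝ) / (φ w' : ℝ) with hτ
        have hτ0 : 0 < τ := div_pos (hφw w hwK hw0 hwU hwne) (hφw w' hw'K hw'0 hw'U hw'ne)
        have h2 : w' = τ⁻¹ • w := by
          rw [h1, smul_smul, inv_mul_cancel₀ hτ0.ne', one_smul]
        have h3 : τ⁻¹ ≤ t₀ := le_csSup hTb ⟨(inv_pos.2 hτ0).le, fun u hu => by
          rw [← h2]; exact hw'U u hu⟩
        have h4 : w' ≤ t₀ • w := by
          rw [h2]; exact smul_le_smul_of_nonneg_right h3 hw0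
        rw [hw'] at h4
        exact le_antisymm (by
          have := sub_le_sub_right h4 (t₀ • w)
          rwa [add_sub_cancel_right, sub_self] at this) hz0
    obtain ⟨_, ⟨u, hu, rfl⟩, hgu⟩ := hoc _ hdn ε hε
    refine ⟨u, hu.1, hu.2.1, hu.2.2.1, hu.2.2.2, ?_⟩
    rwa [map_sub, map_smul, hgw, smul_zero, sub_zero] at hgu

/-- Countably many homomorphisms detect the functional on `K`. -/
theorem exists_D {g : X →L[ℝ] ℝ} (hg : ∀ x, 0 ≤ x → 0 ≤ g x) (hne : E.C.Nonempty) :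
    ∃ φ : ℕ → (X →L[ℝ] realLat), (∀ k, IsLatHom (φ k)) ∧
      ∀ x ∈ E.K, (∀ k, φ k x = 0) → g |x| ≤ 0 := by
  obtain ⟨c, hc⟩ := E.cnt.exists_eq_range hne
  have h : ∀ (i n : ℕ), ∃ Θ : R.F →L[ℝ] ellOne, IsLatHom Θ ∧ ‖Θ‖ ≤ ‖g.comp R.r‖ + 1 ∧
      (g.comp R.r) |R.s (c i)| ≤ ‖Θ (R.s (c i))‖ + 1 / ((n : ℝ) + 1) := fun i n =>
    exists_approx' R.free (comp_pos hg) (R.s (c i)) (by positivity)
  choose Θ hΘ h1 h2 using h
  refine ⟨fun k => (((cf k.unpair.2.unpair.2).comp (Θ k.unpair.1 k.unpair.2.unpair.1))).comp R.s,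
    fun k => (((cf_hom _).comp (hΘ _ _))).comp R.hs, fun x hx hzero => ?_⟩
  have hz : ∀ i n, Θ i n (R.s x) = 0 := by
    intro i n
    refine Sp.ext fun j => ?_
    have := hzero (Nat.pair i (Nat.pair n j))
    simp only [Nat.unpair_pair] at this
    exact this
  refine le_of_forall_pos_le_add fun ε hε => ?_
  rw [zero_add]
  set M : ℝ := (‖g.comp R.r‖ + 1) * ‖R.s‖ + ‖g‖ + 1 with hM
  have hM0 : 0 < M := by positivity
  obtain ⟨y, hy, hxy⟩ := Metric.mem_closure_iff.1 (show x ∈ closure E.C by rw [← E.Keq]; exact hx)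
    (ε / (2 * M)) (by positivity)
  rw [hc] at hy
  obtain ⟨i, rfl⟩ := hy
  obtain ⟨n, hn⟩ := exists_nat_one_div_lt (half_pos hε)
  have h3 := h2 i n
  have h4 : (g.comp R.r) |R.s (c i)| = g |c i| := by
    rw [ContinuousLinearMap.comp_apply, R.hr, R.rs]
  rw [h4] at h3
  rw [dist_eq_norm] at hxy
  have h5 : ‖Θ i n (R.s (c i))‖ ≤ (‖g.comp R.r‖ + 1) * ‖R.s‖ * ‖x - c i‖ := by
    have h6 : Θ i n (R.s (c i)) = -(Θ i n (R.s (x - c i))) := by
      rw [map_sub, map_sub, hz, zero_sub, neg_neg]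
    rw [h6, norm_neg, mul_assoc]
    refine ((Θ i n).le_opNorm _).trans (mul_le_mul (h1 i n) (R.s.le_opNorm _) (norm_nonneg _)
      (by positivity))
  have h7 : g |x| - g |c i| ≤ ‖g‖ * ‖x - c i‖ := by
    rw [← map_sub]
    refine (le_abs_self _).trans ((g.le_opNorm _).trans (mul_le_mul_of_nonneg_left ?_
      (norm_nonneg _)))
    exact norm_mono (abs_abs_sub_abs_le x (c i))
  have h8 : M * ‖x - c i‖ ≤ ε / 2 := by
    have h9 := mul_le_mul_of_nonneg_left hxy.le hM0.le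
    have h10 : M * (ε / (2 * M)) = ε / 2 := by field_simp
    linarith
  have h9 : M * ‖x - c i‖ = (‖g.comp R.r‖ + 1) * ‖R.s‖ * ‖x - c i‖ + ‖g‖ * ‖x - c i‖ +
      ‖x - c i‖ := by rw [hM]; ring
  have := norm_nonneg (x - c i)
  linarith

/-- The positive case. -/
theorem positive_case (R : Ret X) {g : X →L[ℝ] ℝ} (hg : ∀ x, 0 ≤ x → 0 ≤ g x) (hoc : OC g)
    (hat : ∀ a : X, IsAtomV a → g a = 0) {x₀ : X} (hx₀0 : 0 ≤ x₀) : g x₀ ≤ 0 := by
  by_contra hcon
  push Not at hcon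
  obtain ⟨E, hx₀⟩ := exists_env R x₀
  have hCne : E.C.Nonempty := by
    rw [← closure_nonempty_iff, ← E.Keq]
    exact ⟨x₀, hx₀⟩
  obtain ⟨φ, hφ, hD⟩ := exists_D E hg hCne
  set c := g x₀ with hc
  have hu := fun k : ℕ => exists_u E hoc hat (hφ k) hx₀ hx₀0
    (ε := c / 4 * (1 / 2) ^ k) (by positivity)
  choose u huK hu0 hux huφ hgu using hu
  set σ : ℕ → X := fun n => ∑ k ∈ Finset.range n, u k with hσ
  have hσK : ∀ n, σ n ∈ E.K := fun n => E.K.sum_mem fun k _ => huK k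
  have hσ0 : ∀ n, 0 ≤ σ n := fun n => Finset.sum_nonneg fun k _ => hu0 k
  have hσm : Monotone σ := monotone_nat_of_le_succ fun n => by
    rw [hσ]
    change ∑ k ∈ Finset.range n, u k ≤ ∑ k ∈ Finset.range (n + 1), u k
    rw [Finset.sum_range_succ]
    exact le_add_of_nonneg_right (hu0 n)
  have hσk : ∀ k, u k ≤ σ (k + 1) := fun k => by
    rw [hσ]
    change u k ≤ ∑ k ∈ Finset.range (k + 1), u k
    rw [Finset.sum_range_succ]
    exact le_add_of_nonneg_left (Finset.sum_nonneg fun k _ => hu0 k)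
  have hgσ : ∀ n, g (σ n) ≤ c / 2 := fun n => by
    rw [hσ]
    change g (∑ k ∈ Finset.range n, u k) ≤ c / 2
    rw [map_sum]
    calc ∑ k ∈ Finset.range n, g (u k) ≤ ∑ k ∈ Finset.range n, c / 4 * (1 / 2) ^ k :=
          Finset.sum_le_sum fun k _ => hgu k
      _ = c / 4 * ∑ k ∈ Finset.range n, (1 / 2 : ℝ) ^ k := by rw [Finset.mul_sum]
      _ ≤ c / 4 * 2 := by
          refine mul_le_mul_of_nonneg_left ?_ (by linarith)
          have h1 := summable_geometric_two.sum_le_tsum (Finset.range n)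
            (fun k _ => by positivity)
          rwa [tsum_geometric_two] at h1
      _ = c / 2 := by ring
  set V : Set X := {v | ∃ (n : ℕ) (w : X), w ∈ E.K ∧ 0 ≤ w ∧ g w = 0 ∧
    v = (x₀ - σ n - w)⁺} with hV
  have hVdn : Dn V := by
    refine E.dn ?_ ?_ ⟨_, 0, 0, E.K.zero_mem, le_rfl, map_zero g, rfl⟩ ?_ ?_
    · rintro _ ⟨n, w, hwK, -, -, rfl⟩
      exact E.pos (E.K.sub_mem (E.K.sub_mem hx₀ (hσK n)) hwK)
    · rintro _ ⟨n, w, hwK, -, -, rfl⟩
      exact posPart_nonneg _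
    · rintro _ ⟨n, w, hwK, hw0, hgw, rfl⟩ _ ⟨n', w', hwK', hw0', hgw', rfl⟩
      refine ⟨_, ⟨max n n', w + w', E.K.add_mem hwK hwK', add_nonneg hw0 hw0', by
        rw [map_add, hgw, hgw', add_zero], rfl⟩, ?_, ?_⟩
      · refine sup_le_sup_right (sub_le_sub (sub_le_sub_left (hσm (le_max_left n n')) _) ?_) 0
        exact le_add_of_nonneg_right hw0'
      · refine sup_le_sup_right (sub_le_sub (sub_le_sub_left (hσm (le_max_right n n')) _) ?_) 0
        exact le_add_of_nonneg_left hw0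
    · intro z hzK hz0 hz
      -- `z` is killed by all `φ k`
      have h1 : ∀ k, φ k z = 0 := by
        intro k
        have h2 : z ≤ x₀ - u k := by
          refine (hz _ ⟨k + 1, 0, E.K.zero_mem, le_rfl, map_zero g, rfl⟩).trans ?_
          refine sup_le ?_ (sub_nonneg.2 (hux k))
          rw [sub_zero]
          exact sub_le_sub_left (hσk k) _
        have h3 := (hφ k).mono h2
        rw [map_sub, huφ, sub_self] at h3
        exact le_antisymm h3 ((hφ k).nonneg hz0)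
      have h2 : g z = 0 := by
        have h3 := hD z hzK h1
        rw [abs_of_nonneg hz0] at h3
        exact le_antisymm h3 (hg z hz0)
      refine arch hz0 (x := x₀) fun m => ?_
      induction m with
      | zero => rw [Nat.cast_zero, zero_smul]; exact hx₀0
      | succ m ih =>
        have h3 := hz _ ⟨0, (m : ℝ) • z, E.K.smul_mem _ hzK, smul_nonneg (Nat.cast_nonneg m) hz0,
          by rw [map_smul, h2, smul_zero], rfl⟩
        have h4 : σ 0 = 0 := by rw [hσ]; exact Finset.sum_range_zero _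
        rw [h4, sub_zero, posPart_of_nonneg (sub_nonneg.2 ih)] at h3
        rw [Nat.cast_succ, add_smul, one_smul, add_comm]
        exact le_sub_iff_add_le.1 h3
  obtain ⟨_, ⟨n, w, hwK, hw0, hgw, rfl⟩, h⟩ := hoc V hVdn (c / 4) (by linarith)
  have h1 : g (x₀ - σ n - w) ≤ g (x₀ - σ n - w)⁺ := by
    have := hg _ (sub_nonneg.2 (le_posPart (x₀ - σ n - w)))
    rw [map_sub g (x₀ - σ n - w)⁺] at this
    linarith
  rw [map_sub, map_sub, hgw, ← hc] at h1
  have := hgσ n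
  linarith

/-- Every order continuous functional on a projective Banach lattice that vanishes at the atoms is
zero. -/
theorem result : ∀ X : BLat, Projective X → ∀ f : X →L[ℝ] ℝ, OrdCont f →
    (∀ a : X, (0 < a ∧ ∀ x, 0 ≤ x → x ≤ a → ∃ t : ℝ, 0 ≤ t ∧ x = t • a) → f a = 0) →
    f = 0 := by
  intro X hX f hf hat
  obtain ⟨R⟩ := exists_ret hX
  have key : ∀ f : X →L[ℝ] ℝ, OrdCont f → (∀ a : X, IsAtomV a → f a = 0) →
      ∀ x, 0 ≤ x → f x ≤ 0 := by
    intro f hf hat x hx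
    have h1 : GF f x ≤ 0 := by
      refine positive_case R (fun x hx => GF_nonneg f hx) (fun V hV ε hε => GF_ordCont f hf hV hε)
        (fun a ha => ?_) hx
      rw [GF_apply f ha.1.le]
      refine le_antisymm (fp_le f ha.1.le fun y hy0 hya => ?_) (fp_nonneg f ha.1.le)
      obtain ⟨t, -, rfl⟩ := ha.2 y hy0 hya
      rw [map_smul, hat a ha, smul_zero]
    rw [GF_apply f hx] at h1
    exact (le_fp f hx le_rfl).trans h1
  have h1 := key f hf hat
  have h2 := key (-f) (fun I _ _ _ x hx hglb => by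
    have := (hf I x hx hglb).neg
    rwa [neg_zero] at this) (fun a ha => by
    change -(f a) = 0
    rw [hat a ha, neg_zero])
  have h3 : ∀ x, 0 ≤ x → f x = 0 := fun x hx => by
    have h4 : -(f x) ≤ 0 := h2 x hx
    exact le_antisymm (h1 x hx) (by linarith)
  refine ContinuousLinearMap.ext fun x => ?_
  rw [eq_parts x, map_sub, h3 _ (posPart_nonneg x), h3 _ (negPart_nonneg x), sub_self]
  rfl

end Pool.Agent.Results.MP_100021_an.Atoms
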